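import Pool.Agent.WAT.Stmts

/-!
# Row FOU of the squad WAT: Fourier inversion on a quotient
-/

set_option autoImplicit false

open scoped BigOperators

namespace Pool.Agent.PP.TV.H24

/-- the sum over all characters of the quotient -/
theorem fou_key (V : Type) [CommGroup V] [Fintype V] (V₀ : Subgroup V) [Fintype V₀]
    [Fintype (V ⧸ V₀)] [DecidableEq (V ⧸ V₀)] (f : V → ℂ)
    (hf : ∀ lam : V →* ℂ, (∀ v ∈ V₀, lam v = 1) → (∃ v, lam v ≠ 1) → ∑ v : V, f v * lam v = 0)
    (z : V) : (Fintype.card (V ⧸ V₀) : ℂ) * ∑ w : V₀, f (z * w) = ∑ v : V, f v := by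
  classical
  let cl : V → Additive (V ⧸ V₀) := fun v => Additive.ofMul (v : V ⧸ V₀)
  letI : Fintype (Additive (V ⧸ V₀)) := inferInstanceAs (Fintype (V ⧸ V₀))
  have hcl : ∀ a b : V, cl (a * b) = cl a + cl b := fun a b => rfl
  have hcl1 : cl 1 = 0 := rfl
  -- the double sum
  have h1 : ∑ ψ : AddChar (Additive (V ⧸ V₀)) ℂ, ψ (-cl z) * ∑ v : V, f v * ψ (cl v) =
      ∑ v : V, f v := by
    rw [Finset.sum_eq_single (0 : AddChar (Additive (V ⧸ V₀)) ℂ)]
    · simp
    · intro ψ _ hψ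
      let lam : V →* ℂ :=
        { toFun := fun v => ψ (cl v)
          map_one' := by
            rw [hcl1]
            exact ψ.map_zero_eq_one
          map_mul' := fun a b => by
            rw [hcl]
            exact ψ.map_add_eq_mul _ _ }
      have h2 : ∑ v : V, f v * lam v = 0 := by
        apply hf
        · intro v hv
          have h3 : cl v = 0 := by
            change Additive.ofMul (v : V ⧸ V₀) = Additive.ofMul 1
            rw [(QuotientGroup.eq_one_iff v).2 hv]
          change ψ (cl v) = 1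
          rw [h3]
          exact ψ.map_zero_eq_one
        · obtain ⟨x, hx⟩ := AddChar.ne_zero_iff.1 hψ
          obtain ⟨v, hv⟩ := QuotientGroup.mk_surjective (Additive.toMul x)
          refine ⟨v, ?_⟩
          change ψ (cl v) ≠ 1
          have h4 : cl v = x := by
            change Additive.ofMul (v : V ⧸ V₀) = x
            rw [hv]
            rfl
          rw [h4]
          exact hx
      change ψ (-cl z) * ∑ v : V, f v * lam v = 0
      rw [h2, mul_zero]
    · intro h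
      exact absurd (Finset.mem_univ _) h
  have h2 : ∑ ψ : AddChar (Additive (V ⧸ V₀)) ℂ, ψ (-cl z) * ∑ v : V, f v * ψ (cl v) =
      ∑ v : V, f v * ∑ ψ : AddChar (Additive (V ⧸ V₀)) ℂ, ψ (-cl z + cl v) := by
    simp_rw [Finset.mul_sum]
    rw [Finset.sum_comm]
    refine Finset.sum_congr rfl fun v _ => Finset.sum_congr rfl fun ψ _ => ?_
    rw [ψ.map_add_eq_mul]
    ring
  have h3 : ∀ v : V, ∑ ψ : AddChar (Additive (V ⧸ V₀)) ℂ, ψ (-cl z + cl v) =
      if z⁻¹ * v ∈ V₀ then (Fintype.card (V ⧸ V₀) : ℂ) else 0 := by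
    intro v
    rw [AddChar.sum_apply_eq_ite]
    have h4 : (-cl z + cl v = 0) ↔ z⁻¹ * v ∈ V₀ := by
      rw [← QuotientGroup.eq_one_iff]
      rfl
    have h5 : Fintype.card (Additive (V ⧸ V₀)) = Fintype.card (V ⧸ V₀) := rfl
    rw [h5]
    by_cases h : z⁻¹ * v ∈ V₀
    · rw [if_pos h, if_pos (h4.2 h)]
    · rw [if_neg h, if_neg (fun h' => h (h4.1 h'))]
  rw [h2] at h1
  rw [← h1, Finset.mul_sum]
  have h6 : ∑ v : V, f v * ∑ ψ : AddChar (Additive (V ⧸ V₀)) ℂ, ψ (-cl z + cl v) =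
      ∑ v ∈ Finset.univ.filter (fun v : V => z⁻¹ * v ∈ V₀),
        (Fintype.card (V ⧸ V₀) : ℂ) * f v := by
    rw [Finset.sum_filter]
    refine Finset.sum_congr rfl fun v _ => ?_
    rw [h3]
    split_ifs
    · ring
    · ring
  rw [h6]
  refine Finset.sum_bij (fun (w : V₀) _ => z * (w : V)) ?_ ?_ ?_ ?_
  · intro w _
    rw [Finset.mem_filter]
    refine ⟨Finset.mem_univ _, ?_⟩
    rw [inv_mul_cancel_left]
    exact w.2
  · intro w _ w' _ h
    exact Subtype.ext (mul_left_cancel h)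
  · intro v hv
    rw [Finset.mem_filter] at hv
    exact ⟨⟨z⁻¹ * v, hv.2⟩, Finset.mem_univ _, mul_inv_cancel_left z v⟩
  · intro w _
    rfl

/-- **FOU**. -/
theorem fou : FouStmt := by
  classical
  intro V _ _ V₀ f hf z
  haveI : Fintype V := Fintype.ofFinite V
  haveI : Fintype V₀ := Fintype.ofFinite V₀
  haveI : Fintype (V ⧸ V₀) := Fintype.ofFinite (V ⧸ V₀)
  have hf' : ∀ lam : V →* ℂ, (∀ v ∈ V₀, lam v = 1) → (∃ v, lam v ≠ 1) →
      ∑ v : V, f v * lam v = 0 := by
    intro lam h1 h2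
    have h3 := hf lam h1 h2
    rwa [finsum_eq_sum_of_fintype] at h3
  have k1 := fou_key V V₀ f hf' z
  have k2 := fou_key V V₀ f hf' 1
  have hc : (Fintype.card (V ⧸ V₀) : ℂ) ≠ 0 := by
    exact_mod_cast Fintype.card_ne_zero
  rw [finsum_eq_sum_of_fintype, finsum_eq_sum_of_fintype]
  apply mul_left_cancel₀ hc
  rw [k1, ← k2]
  simp only [one_mul]

end Pool.Agent.PP.TV.H24
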